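import Pool.Agent.H38.Jit.Fin

/-!
Bottleneck just-in-time sequencing (binary input) is co-NP-hard, so it is in NP only if
NP = co-NP.
-/

namespace Pool.Agent.Results.MP_cedc2d_lc.CoHard

open Pool.Agent.H38.NP Pool.Agent.H38.Jit

theorem result : CoNPHard (lang BJIT) := bjit_hard

end Pool.Agent.Results.MP_cedc2d_lc.CoHard
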